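import Pool.Agent.MP_a2955b_co.Gen.Main

set_option autoImplicit false

namespace Pool.Agent.Results.MP_a2955b_co.GeneralUpper

open Pool.Agent.MP_a2955b_co

/-- For `d ≥ 4` there is `δ > 0` such that every polyhedron with `n` faces has a convex
partition of size `O(n ^ (d - 1 - δ))`. -/
theorem result (d : ℕ) (hd : 4 ≤ d) : ∃ δ : ℝ, 0 < δ ∧ ∃ A : ℝ,
    ∀ (n : ℕ) (P : Set (EuclideanSpace ℝ (Fin d))), 1 ≤ n → IsPolyhedron P n →
    ∃ (M : ℕ) (K : Fin M → Set (EuclideanSpace ℝ (Fin d))), IsConvexPartition P K ∧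
      (M : ℝ) ≤ A * (n : ℝ) ^ ((d : ℝ) - 1 - δ) :=
  Gen.sFinal d hd

end Pool.Agent.Results.MP_a2955b_co.GeneralUpper
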