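import Pool.Agent.MP_a2955b_co.Constr

set_option autoImplicit false

namespace Pool.Agent.Results.MP_a2955b_co.LowerBound

open Pool.Agent.MP_a2955b_co

theorem result (k d : ℕ) (hd4 : 4 ≤ d) (hd : k * (k + 1) ≤ 2 * d) :
    ∃ c : ℝ, 0 < c ∧ ∃ N : ℕ, ∀ n : ℕ, N ≤ n →
      ∃ P : Set (EuclideanSpace ℝ (Fin d)), IsPolyhedron P n ∧
        ∀ (M : ℕ) (C : Fin M → Set (EuclideanSpace ℝ (Fin d))),
          IsConvexPartition P C → c * (n : ℝ) ^ k ≤ M :=
  lower_bound k d (by omega) hd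

end Pool.Agent.Results.MP_a2955b_co.LowerBound
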