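import Pool.Agent.MP_a2955b_co.Orth.Main

set_option autoImplicit false

namespace Pool.Agent.Results.MP_a2955b_co.OrthogonalExponent

open Pool.Agent.MP_a2955b_co Pool.Agent.MP_a2955b_co.Orth

/-- For polyhedra whose faces are axis-parallel boxes the worst-case size of a minimum convex
partition is `n ^ (tauStar d + o(1))`. -/
theorem result (d : ℕ) (hd : 2 ≤ d) (ε : ℝ) (hε : 0 < ε) :
    (∃ A : ℝ, ∀ (n : ℕ) (P : Set (EuclideanSpace ℝ (Fin d))), 1 ≤ n → IsOrthPolyhedron P n →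
      ∃ (M : ℕ) (K : Fin M → Set (EuclideanSpace ℝ (Fin d))), IsConvexPartition P K ∧
        (∀ k, IsBox (K k)) ∧ (M : ℝ) ≤ A * (n : ℝ) ^ (tauStar d + ε)) ∧
    ∃ N : ℕ, ∀ n : ℕ, N ≤ n → ∃ P : Set (EuclideanSpace ℝ (Fin d)), IsOrthPolyhedron P n ∧
      ∀ (M : ℕ) (K : Fin M → Set (EuclideanSpace ℝ (Fin d))), IsConvexPartition P K →
        (n : ℝ) ^ (tauStar d - ε) ≤ M :=
  main hd hε

end Pool.Agent.Results.MP_a2955b_co.OrthogonalExponent
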